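import Pool.Agent.H31.GP.Tuples

set_option autoImplicit false

/-!
# The digits of the members of almost prime tuples

The tuples `n + h`, `h ∈ H`, are considered for all admissible sets `H` of at most `k` integers `0 ≤ h ≤ N ^ A` and for `n` in an
interval `[M, M + N)` with `M ≤ N ^ A`, uniformly in `H` and `M`. The number of the `n` for which all the numbers `n + h` have no
prime factor `≤ y`, where `y` is a small power of `N` (so that all of them are almost primes with a bounded number
of prime factors), is the expected one. Let `q ≥ 2`, and let `T` be the power of `q` with `T ≤ √N < q T`, so that `n % T`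
and `n / T` are the lower and the upper half of the digits of `n` in base `q`. Let `f s`, for the elements
`s` of ANY set `S` of at most `k` shifts, be sums of at most `m` products of an arbitrary function of the lower half and an
arbitrary function of the upper half of the digits (functions computed by finite automata are of this kind). Then
the mean value of `∏ s ∈ S, f s (n + s)` over the almost prime tuples is up to `ε` the mean value over the `n` of the interval for
which all the `n + h` have no prime factor `≤ w`, where `w` is a constant. For the sums of digits this implies: if `m` is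
coprime to `q - 1`, the sum of the digits of `n + s`, for `0 ≤ s ≤ N ^ A`, is equidistributed modulo `m` along the almost
prime tuples.

Proof. The general theorem `Pool.Agent.H31.GP.digitWin` holds uniformly for all polynomials of bounded degree, with
coefficients bounded by a power of `N`, and without fixed prime divisors; a translation by `s` at most doubles the number of
products, since it can be read off from the carry between the two halves.
-/

namespace Pool.Agent.Results.MP_8923e7_nt.DigitsOfAlmostPrimeTuples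

open Finset Filter

/-- no prime divides one of the numbers `n + h` for every `n` -/
def Admissible (H : Finset ℕ) : Prop := ∀ p : ℕ, p.Prime → ∃ n : ℕ, ∀ h ∈ H, ¬ p ∣ n + h

open Classical in
/-- The integers `M ≤ n < M + N` such that for all `h ∈ H` all prime factors of `n + h` are larger than `y`. -/
noncomputable def rough (H : Finset ℕ) (y M N : ℕ) : Finset ℕ :=
  (Ico M (M + N)).filter (fun n => ∀ h ∈ H, ∀ p : ℕ, p.Prime → p ∣ n + h → y < p)

/-- The product over the primes `p ≤ y` of `1 - ν (p) / p`, where `ν (p)` is the number of the residue classes `n` modulo `p`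
with `p ∣ n + h` for some `h ∈ H`. -/
noncomputable def V (H : Finset ℕ) (y : ℕ) : ℝ := ∏ p ∈ (range (y + 1)).filter Nat.Prime,
  (1 - (((range p).filter (fun n => ∃ h ∈ H, p ∣ n + h)).card : ℝ) / p)

/-- The mean value of a function over a finite set. -/
noncomputable def mean (S : Finset ℕ) (g : ℕ → ℂ) : ℂ := (∑ n ∈ S, g n) / (S.card : ℂ)

/-- `Φ` is a sum of `m` products of a function of `n % T` and a function of `n / T`, all of modulus at most one. -/
def SplitRank (T m : ℕ) (Φ : ℕ → ℂ) : Prop := ∃ G H : Fin m → ℕ → ℂ,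
  (∀ i n, ‖G i n‖ ≤ 1) ∧ (∀ i n, ‖H i n‖ ≤ 1) ∧ ∀ n, Φ n = ∑ i, G i (n % T) * H i (n / T)

open Pool.Agent.H31 Polynomial

lemma rough_tr (H : Finset ℕ) (s y M N : ℕ) : (rough H y M N).map (addRightEmbedding s) = GP.roughW (GP.PH H s) y (M + s) N := by
  classical
  ext n
  rw [Finset.mem_map, GP.mem_roughW]
  unfold rough
  simp only [mem_filter, mem_Ico, addRightEmbedding_apply]
  constructor
  · rintro ⟨n, ⟨h1, h2⟩, rfl⟩
    refine ⟨by omega, fun p hp hR => ?_⟩
    rw [GP.RF_PH H s n p hp] at hR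
    obtain ⟨h, hh, h3⟩ := hR
    exact h2 h hh p hp h3
  · rintro ⟨h1, h2⟩
    refine ⟨n - s, ⟨by omega, fun h hh p hp h3 => h2 p hp ?_⟩, by omega⟩
    have e : n = (n - s) + s := by omega
    rw [e, GP.RF_PH H s (n - s) p hp]
    exact ⟨h, hh, h3⟩

lemma rough_eq (H : Finset ℕ) (y M N : ℕ) : rough H y M N = GP.roughW (GP.PH H 0) y M N := by
  have h := rough_tr H 0 y M N
  rw [add_zero] at h
  rw [← h]
  ext n
  simp

lemma V_eq (H : Finset ℕ) (y : ℕ) : V H y = GP.V (GP.PH H 0) y := by
  classical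
  unfold V GP.V
  have e : (range (y + 1)).filter Nat.Prime = Pool.Agent.H373R2.T7.pz y := by
    ext p
    rw [mem_filter, mem_range, Pool.Agent.H373R2.T7.mem_pz, Nat.lt_succ_iff]
  rw [e]
  apply prod_congr rfl
  intro p hp
  unfold GP.rh
  congr 4
  ext n
  have h1 := GP.RF_PH H 0 n p (Pool.Agent.H373R2.T7.mem_pz.1 hp).2
  rw [add_zero] at h1
  rw [mem_filter, mem_range, GP.mem_ZF, one_mul, add_zero, h1]

theorem result :
    (∀ q m k A : ℕ, 2 ≤ q → 1 ≤ m → ∀ ε : ℝ, 0 < ε → ∃ w r : ℕ, 3 ≤ w ∧ ∀ᶠ N : ℕ in atTop,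
      ∀ H : Finset ℕ, Admissible H → H.card ≤ k → (∀ h ∈ H, h ≤ N ^ A) → ∀ M : ℕ, M ≤ N ^ A → ∀ y : ℕ, w ≤ y → y ^ r ≤ N →
        |((rough H y M N).card : ℝ) - N * V H y| ≤ ε * (N * V H y) ∧
        (∀ z : ℕ, w ≤ z → z ≤ y → ∀ S : Finset ℕ, S.card ≤ k → ∀ f : ℕ → ℕ → ℂ,
          (∀ s ∈ S, SplitRank (q ^ Nat.log q (Nat.sqrt N)) m (f s)) →
          ‖mean (rough H y M N) (fun n => ∏ s ∈ S, f s (n + s)) - mean (rough H z M N) (fun n => ∏ s ∈ S, f s (n + s))‖ ≤ ε) ∧
        (m.Coprime (q - 1) → ∀ s : ℕ, s ≤ N ^ A → ∀ a : ℕ,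
          |(((rough H y M N).filter (fun n => (Nat.digits q (n + s)).sum ≡ a [MOD m])).card : ℝ) / (rough H y M N).card - 1 / m| ≤ ε)) ∧
    (∀ q : ℕ, 2 ≤ q → ∀ (σ : Type) [Fintype σ] (δ : σ → ℕ → σ) (s₀ : σ) (τ : σ → ℂ), (∀ s, ‖τ s‖ ≤ 1) → ∀ j : ℕ,
      SplitRank (q ^ j) (Fintype.card σ + 1) (fun n => τ ((Nat.digits q n).foldl δ s₀)) ∧
      SplitRank (q ^ j) (Fintype.card σ + 1) (fun n => τ ((Nat.digits q n).reverse.foldl δ s₀))) ∧
    (∀ (H : Finset ℕ) (j y M N : ℕ), 1 ≤ j → ∀ n ∈ rough H y M N, ∀ h ∈ H, n + h < (y + 1) ^ j →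
      (n + h).primeFactorsList.length < j) := by
  classical
  refine ⟨?_, ?_, ?_⟩
  · intro q m k A hq hm ε hε
    obtain ⟨w1, r1, hw1, h1⟩ := GP.digitWin q ((2 * m) ^ k) (k + 1) ((A + 2) * (k + 1)) hq (Nat.one_le_pow _ _ (by omega)) (by omega) ε hε
    obtain ⟨w2, r2, hw2, h2⟩ := GP.digitWin q m (k + 1) ((A + 2) * (k + 1)) hq hm (by omega) ε hε
    refine ⟨max w1 w2, max r1 r2, le_max_of_le_left hw1, ?_⟩
    filter_upwards [h1, h2, GP.PH_coeff_pow (A + 1) (k + 1), eventually_ge_atTop 2] with N h1 h2 hco hN H hA hk hH M hM y hwy hyr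
    have hN1 : 1 ≤ N := by omega
    have hpow : ∀ i j : ℕ, i ≤ j → N ^ i ≤ N ^ j := fun i j h => Nat.pow_le_pow_right (by omega) h
    have hE : A + 2 ≤ (A + 2) * (k + 1) := Nat.le_mul_of_pos_right _ (by omega)
    have hH' : ∀ h ∈ H, h ≤ N ^ (A + 1) := fun h hh => (hH h hh).trans (hpow _ _ (by omega))
    have hy1 : w1 ≤ y := (le_max_left _ _).trans hwy
    have hy2 : w2 ≤ y := (le_max_right _ _).trans hwy
    have hwy0 : 1 ≤ y := by omega
    have hr1 : y ^ r1 ≤ N := (Nat.pow_le_pow_right hwy0 (le_max_left _ _)).trans hyr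
    have hr2 : y ^ r2 ≤ N := (Nat.pow_le_pow_right hwy0 (le_max_right _ _)).trans hyr
    have hc : ∀ s : ℕ, s ≤ N ^ A → ∀ i, |(GP.PH H s).coeff i| ≤ (N : ℤ) ^ ((A + 2) * (k + 1)) := by
      intro s hs i
      exact hco H (by omega) hH' s (hs.trans (hpow _ _ (by omega))) i
    have hsys : ∀ s : ℕ, GP.Sys (GP.PH H s) (k + 1) := fun s => GP.PH_sys H s (k + 1) (by omega) hA
    have a1 := h1 (GP.PH H 0) (hsys 0) (hc 0 (Nat.zero_le _)) M (hM.trans (hpow _ _ (by omega))) y hy1 hr1
    refine ⟨?_, ?_, ?_⟩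
    · rw [rough_eq, V_eq]
      exact a1.1
    · intro z hwz hzy S hS f hf
      rw [rough_eq, rough_eq]
      refine a1.2.1 z ((le_max_left _ _).trans hwz) hzy _ ?_
      apply GP.split_mono (Nat.pow_le_pow_right (by omega : 0 < 2 * m) hS)
      exact GP.split_prod (Nat.one_le_pow _ _ (by omega)) S f hf
    · intro hcop s hs a
      have hM' : M + s ≤ N ^ ((A + 2) * (k + 1)) := by
        have e1 : N ^ A * 2 ≤ N ^ A * N := Nat.mul_le_mul_left _ hN
        have e2 : N ^ (A + 1) = N ^ A * N := pow_succ _ _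
        have e3 := hpow (A + 1) ((A + 2) * (k + 1)) (by omega)
        omega
      have a2 := (h2 (GP.PH H s) (hsys s) (hc s hs) (M + s) hM' y hy2 hr2).2.2 hcop a
      rw [← rough_tr, card_map, filter_map, card_map] at a2
      exact a2
  · intro q hq σ _ δ s₀ τ hτ j
    exact ⟨DG.aut_low q (by omega) δ s₀ τ hτ j, DG.aut_high q (by omega) δ s₀ τ hτ j⟩
  · intro H j y M N hj n hn h hh hlt
    unfold rough at hn
    rw [mem_filter] at hn
    rcases Nat.eq_zero_or_pos (n + h) with h0 | h0
    · rw [h0]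
      simp
      omega
    have h1 : (y + 1) ^ (n + h).primeFactorsList.length ≤ n + h := by
      conv_rhs => rw [← Nat.prod_primeFactorsList h0.ne']
      apply List.pow_card_le_prod
      intro p hp
      exact hn.2 h hh p (Nat.prime_of_mem_primeFactorsList hp) (Nat.dvd_of_mem_primeFactorsList hp)
    by_contra h2
    push Not at h2
    have h3 : (y + 1) ^ j ≤ n + h := le_trans (Nat.pow_le_pow_right (by omega) h2) h1
    omega

end Pool.Agent.Results.MP_8923e7_nt.DigitsOfAlmostPrimeTuples
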