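import Mathlib
import Pool.Agent.H48.BM.Core

/-!
# Many prime tuples near every vector, and the tuples conjecture after random bounded moves of very few primes

1. For every `k` there are `C` and `K` such that for EVERY vector `v` of `k - 1` integers there are arbitrarily large `x`
and distinct nonzero `a_i` with `|a_i - v_i| ≤ C` for which at least `x / (log x) ^ K` of the `N ≤ x` have all the numbers
`N, N + a_1, …, N + a_(k-1)` prime: the tuples for which the conjecture holds, with a power of the logarithm as loss in the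
number, are syndetic. (The library has infinitely many such `N`.)

2. For every `k ≥ 1` there is a constant `L`, and for every `B` there is `K`, with the following property. Let
the primes `p` be moved independently to `p + 2 i p`, where `i p` is a random integer which takes each of the values
`1, ..., L` with probability at least `δ p` and the value `0` with probability at least `1 / (log p) ^ B` (for
all large `p`); nothing else is assumed about the laws of the `i p`. Here `δ ≥ 0` is any nonincreasing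
sequence with `x (δ x) ^ (k - 1) / (log x) ^ K → ∞`. Let `S` be the set of the numbers `p + 2 i p`. Then
almost surely EVERY set `V` of at most `k` integers of the same parity (with arbitrarily large
distances) satisfies the conjecture for `S`: there are infinitely many `n` with `n + V ⊆ S`, and there are
arbitrarily large `x` with at least `x (δ x) ^ (k - 1) / (log x) ^ K` such `n ≤ x`.

* For `k = 2` it suffices that `δ p = (log p) ^ (K + 1) / p`: after random moves of only `(log x) ^ O(1)` of
  the primes up to `x`, these by a bounded amount, every even number is infinitely often a difference.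
* For `k ≥ 3` one can take `δ p = p ^ (- 1 / (k - 1)) (log p) ^ (K + 1)`. This is sharp for the method up to
  the power of the logarithm: if the sum of the `(δ p) ^ (k - 1)` converges, almost surely only finitely many
  `n` have `n + V ⊆ S` with `k - 1` moved elements.
* If `δ` is a positive constant for every `L` (for instance if the `i p` have the same law, which gives
  positive probability to every integer `j ≥ 0`), the conclusion holds for all finite sets `V` of integers of
  the same parity at the same time.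

Proof. By the coloured Maynard-Tao theorem with `5 / 18` of the classes, uniform in shifts as large as the
variable and with at least `N / (log N) ^ C` solutions (starting files, `Pool.Agent.Y827.RO.lamRD`), the
density Hales-Jewett theorem (starting files), and an argument of Hausdorff type, there are `C` and `K`
such that every vector `v` of `k - 1` integers has, for arbitrarily large `x`, at least `x / (log x) ^ K`
primes `N ≤ x` with all `N + a i` prime, for some distinct nonzero `a i` with `|a i - v i| ≤ C`. With `v`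
slightly to the left of the differences of the elements of `V`, the prime `N` stays and the primes `N + a i`
move to their places with a probability of at least `(δ (2 x)) ^ (k - 1) / (log x) ^ B`, and a second moment
estimate for well separated `N` is used.
-/

set_option autoImplicit false

namespace Pool.Agent.Results.MP_8923e7_nt.FewBoundedMoves

open Filter MeasureTheory ProbabilityTheory

/-- The moves `i p` of the primes are independent and take, for large `p`, each of the values `1, ..., L` with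
probability at least `δ p` and the value `0` with probability at least `1 / (log p) ^ B`. -/
structure Moves {Ω : Type} [MeasurableSpace Ω] (L B : ℕ) (δ : ℕ → ℝ) (μ : Measure Ω)
    (i : Nat.Primes → Ω → ℤ) : Prop where
  measurable : ∀ p, Measurable (i p)
  indep : iIndepFun i μ
  move : ∃ P : ℕ, ∀ p : Nat.Primes, P ≤ (p : ℕ) → ∀ j : ℤ, 1 ≤ j → j ≤ L →
    δ p ≤ μ.real {w | i p w = j}
  stay : ∃ P : ℕ, ∀ p : Nat.Primes, P ≤ (p : ℕ) → 1 / Real.log (p : ℕ) ^ B ≤ μ.real {w | i p w = 0}

/-- The set of the numbers `p + 2 i p`. -/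
def S {Ω : Type} (i : Nat.Primes → Ω → ℤ) (w : Ω) : Set ℤ :=
  {m | ∃ p : Nat.Primes, m = ((p : ℕ) : ℤ) + 2 * i p w}

theorem result (k : ℕ) (hk : 1 ≤ k) :
    -- the primes themselves: many prime tuples within a bounded distance of every vector
    (∃ C K : ℕ, ∀ v : Fin (k - 1) → ℤ, ∃ᶠ x : ℕ in atTop, ∃ a : Fin (k - 1) → ℤ,
      Function.Injective a ∧ (∀ l, a l ≠ 0) ∧ (∀ l, |a l - v l| ≤ C) ∧ (x : ℝ) / Real.log x ^ K ≤
        ({N : ℕ | N ≤ x ∧ N.Prime ∧ ∀ l, ∃ p : ℕ, p.Prime ∧ (p : ℤ) = N + a l}.ncard : ℝ)) ∧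
    -- few bounded moves
    ∃ L : ℕ, ∀ B : ℕ, ∃ K : ℕ, ∀ δ : ℕ → ℝ,
    (∀ n, 0 ≤ δ n) → Antitone δ →
    Tendsto (fun x : ℕ => (x : ℝ) * δ x ^ (k - 1) / Real.log x ^ K) atTop atTop →
    ∀ (Ω : Type) [MeasurableSpace Ω] (μ : Measure Ω) [IsProbabilityMeasure μ]
      (i : Nat.Primes → Ω → ℤ), Moves L B δ μ i →
    ∀ᵐ w ∂μ, ∀ V : Finset ℤ, V.card ≤ k → (∀ u ∈ V, ∀ v ∈ V, Even (u - v)) →
      {n : ℕ | ∀ v ∈ V, (n : ℤ) + v ∈ S i w}.Infinite ∧
      ∃ᶠ x : ℕ in atTop, (x : ℝ) * δ x ^ (k - 1) / Real.log x ^ K ≤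
        ({n : ℕ | n ≤ x ∧ ∀ v ∈ V, (n : ℤ) + v ∈ S i w}.ncard : ℝ) := by
  classical
  refine ⟨Pool.Agent.H48.BM.near (k - 1), ?_⟩
  obtain ⟨L, hL⟩ := Pool.Agent.H48.BM.core (k - 1)
  refine ⟨L, fun B => ?_⟩
  obtain ⟨K, hL⟩ := hL B
  refine ⟨K, fun δ hδ0 hδa hδt Ω _ μ _ i hi => ?_⟩
  have hcore := hL δ hδ0 hδa hδt μ i hi.measurable hi.indep hi.move hi.stay
  have hall : ∀ᵐ w ∂μ, ∀ (v : ℤ) (u : Fin (k - 1) → ℤ), Function.Injective u →
      (∀ l, u l ≠ 0) → (∀ l, Even (u l)) → ∃ᶠ x : ℕ in atTop,
        w ∈ Pool.Agent.H48.BM.Ev i v u ((x : ℝ) * δ x ^ (k - 1) / Real.log x ^ K) x := by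
    rw [ae_all_iff]; intro v
    rw [ae_all_iff]; intro u
    by_cases h : Function.Injective u ∧ (∀ l, u l ≠ 0) ∧ (∀ l, Even (u l))
    · have h1 := Pool.Agent.H48.BM.frequently_of_high μ
        (fun x : ℕ => Pool.Agent.H48.BM.Ev i v u ((x : ℝ) * δ x ^ (k - 1) / Real.log x ^ K) x)
        (hcore v u h.1 h.2.1 h.2.2)
      filter_upwards [h1] with w hw _ _ _
      exact hw
    · exact Eventually.of_forall fun w h1 h2 h3 => absurd ⟨h1, h2, h3⟩ h
  filter_upwards [hall] with w hw V hVk hV
  -- extend `V` to a set with `k` elements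
  obtain ⟨v0, hv0⟩ : ∃ v0 : ℤ, ∀ v ∈ V, Even (v - v0) := by
    rcases V.eq_empty_or_nonempty with h | ⟨v0, h⟩
    · exact ⟨0, by simp [h]⟩
    · exact ⟨v0, fun v hv => hV v hv v0 h⟩
  have hinf : {z : ℤ | Even (z - v0)}.Infinite := by
    apply Set.infinite_of_injective_forall_mem (f := fun n : ℕ => v0 + 2 * (n : ℤ))
    · intro a b hab
      simp only at hab
      omega
    · intro n
      simp only [Set.mem_ofPred_eq, add_sub_cancel_left]
      exact even_two_mul _
  obtain ⟨V', hVV', hV't, hV'k⟩ := hinf.exists_superset_ncard_eq (s := (V : Set ℤ)) (k := k)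
    (fun v hv => hv0 v hv) V.finite_toSet (by rw [Set.ncard_coe_finset]; exact hVk)
  have hV'f : V'.Finite := Set.finite_of_ncard_ne_zero (by omega)
  obtain ⟨W, rfl⟩ : ∃ W : Finset ℤ, (W : Set ℤ) = V' := ⟨hV'f.toFinset, hV'f.coe_toFinset⟩
  rw [Set.ncard_coe_finset] at hV'k
  obtain ⟨v1, hv1⟩ : W.Nonempty := Finset.card_pos.1 (by omega)
  have hWe : (W.erase v1).card = k - 1 := by rw [Finset.card_erase_of_mem hv1, hV'k]
  let e : W.erase v1 ≃ Fin (k - 1) := (W.erase v1).equivFinOfCardEq hWe
  set u : Fin (k - 1) → ℤ := fun l => (e.symm l : ℤ) - v1 with hu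
  have hu1 : Function.Injective u := by
    intro a b hab
    simp only [hu] at hab
    exact e.symm.injective (Subtype.ext (by linarith))
  have hu2 : ∀ l, u l ≠ 0 := by
    intro l h
    have h1 := (Finset.mem_erase.1 (e.symm l).2).1
    apply h1
    simp only [hu] at h
    linarith
  have hu3 : ∀ l, Even (u l) := by
    intro l
    have h1 := hV't (Finset.mem_coe.2 (Finset.mem_erase.1 (e.symm l).2).2)
    have h2 := hV't (Finset.mem_coe.2 hv1)
    rw [Set.mem_ofPred_eq] at h1 h2
    have h3 : u l = ((e.symm l : ℤ) - v0) - (v1 - v0) := by simp only [hu]; ring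
    rw [h3]
    exact h1.sub h2
  have hsub : ∀ x : ℕ, {n : ℕ | n ≤ x ∧ (n : ℤ) + v1 ∈ Pool.Agent.H48.BM.MS i w ∧
      ∀ l, (n : ℤ) + v1 + u l ∈ Pool.Agent.H48.BM.MS i w} ⊆
      {n : ℕ | n ≤ x ∧ ∀ v ∈ V, (n : ℤ) + v ∈ S i w} := by
    rintro x n ⟨h1, h2, h3⟩
    refine ⟨h1, fun v hv => ?_⟩
    by_cases hvv : v = v1
    · rw [hvv]; exact h2
    · have hvW : v ∈ W.erase v1 := Finset.mem_erase.2 ⟨hvv, Finset.mem_coe.1 (hVV' hv)⟩
      have h4 := h3 (e ⟨v, hvW⟩)
      simp only [hu, Equiv.symm_apply_apply] at h4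
      have h5 : (n : ℤ) + v1 + (v - v1) = n + v := by ring
      rw [h5] at h4
      exact h4
  have hcount : ∃ᶠ x : ℕ in atTop, (x : ℝ) * δ x ^ (k - 1) / Real.log x ^ K ≤
      ({n : ℕ | n ≤ x ∧ ∀ v ∈ V, (n : ℤ) + v ∈ S i w}.ncard : ℝ) := by
    refine (hw v1 u hu1 hu2 hu3).mono fun x hx => ?_
    refine le_trans hx ?_
    have h2 := Set.ncard_le_ncard (hsub x) ((Set.finite_Iic x).subset fun n hn => hn.1)
    exact_mod_cast h2
  refine ⟨?_, hcount⟩
  intro hfin
  obtain ⟨x, hx1, hx2⟩ := (hcount.and_eventually (hδt.eventually_gt_atTop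
    ({n : ℕ | ∀ v ∈ V, (n : ℤ) + v ∈ S i w}.ncard : ℝ))).exists
  have h2 : {n : ℕ | n ≤ x ∧ ∀ v ∈ V, (n : ℤ) + v ∈ S i w}.ncard ≤
      {n : ℕ | ∀ v ∈ V, (n : ℤ) + v ∈ S i w}.ncard := Set.ncard_le_ncard (fun n hn => hn.2) hfin
  have h3 : ({n : ℕ | n ≤ x ∧ ∀ v ∈ V, (n : ℤ) + v ∈ S i w}.ncard : ℝ) ≤
      ({n : ℕ | ∀ v ∈ V, (n : ℤ) + v ∈ S i w}.ncard : ℝ) := by exact_mod_cast h2
  linarith

end Pool.Agent.Results.MP_8923e7_nt.FewBoundedMoves
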