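import Mathlib
import Pool.Agent.H48.PM.D

/-!
# In every set of integers, tuples which satisfy the conjecture carry a fixed proportion of the Hardy-Littlewood mass

The mass of a tuple `a = (a_0, ..., a_k)` of distinct integers is its singular series `𝔖 (a)`, the constant in the
asymptotic formula of Hardy and Littlewood for the number of the `n` for which all `n + a_i` are prime; it is `0` if and
only if the tuple has a local obstruction. Let `δ = (5/18)^k`, and `δ = 1/3` for `k = 1`.

**Theorem.** For all `k` and `ε > 0` there is `C` such that EVERY set `A` of integers between `0` and `M` has a family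
`G` of `(k+1)`-tuples of distinct elements with

`∑_{a ∈ G} 𝔖 (a) ≥ (δ - ε) max (|A| ^ (k+1), ∑_a 𝔖 (a)) - C (log M) ^ (k+1)`,

where the sum on the right is over ALL `(k+1)`-tuples of distinct elements of `A`, such that all tuples of `G` satisfy the
prime tuples conjecture: for arbitrarily large `N` (the same ones for all tuples of `G`) and for every set `J` of indices
at least `N / (log N) ^ B` numbers `n ≤ N` are such that exactly the `n + a_i` with `i ∈ J` are prime, every prime within
distance `R` of `n` belongs to `n + A`, and the same is true for `n + d, n + 2 d, ..., n + (l - 1) d`, where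
`1 ≤ d ≤ (log N) ^ B`. Moreover at EVERY large `N` there is such a family `G` (depending on `N`).

More generally `n` may be restricted to a class `b` modulo `q` for which all `b + v`, `v ∈ A`, are prime to `q`; then the
primes dividing `q` are left out in `𝔖`. The constant `C` depends on `k` and `ε` only.

Nothing is assumed about the set `A`; its total mass is at least of the order `|A| ^ (k+1)`, so the error term is
negligible as soon as `|A|` is large compared with `log M`. Without the singular series a theorem of this kind cannot hold
for all `A`, since most tuples may have local obstructions; the starting files have the proportion `δ` of the NUMBER of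
the tuples for sets `A` which miss a residue class modulo every prime `p ≤ z (k, ε)`.

Proof. For all primes `p ≤ y`, `y` larger than `M` and `z (k, ε)`, one class modulo `p` is removed from `A`, in all
possible ways, and the theorem of the starting files is applied to the remaining sets. A tuple `a` survives in
the proportion `∏ (1 - ν_a (p) / p)` of the cases, and this is `𝔖 (a)` up to a factor which does not depend on `a`, because
`ν_a (p) = k + 1` for all `p > y`.
-/

set_option autoImplicit false

namespace Pool.Agent.Results.MP_8923e7_nt.MassInArbitrarySets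

open Filter Finset

/-- the proportion: `1 / 3` for pairs, `(5 / 18) ^ k` for `(k + 1)`-tuples -/
noncomputable def proportion (k : ℕ) : ℝ := if k = 1 then 1 / 3 else (5 / 18) ^ k

/-- the number of the residue classes modulo `p` which contain a member of the tuple -/
def nu {m : ℕ} (a : Fin m → ℕ) (p : ℕ) : ℕ := (univ.image (fun i => a i % p)).card

/-- the local factor `(1 - ν / p) / (1 - 1 / p) ^ m` of an `m`-tuple -/
noncomputable def loc {m : ℕ} (a : Fin m → ℕ) (p : ℕ) : ℝ := (1 - (nu a p : ℝ) / p) / (1 - 1 / (p : ℝ)) ^ m

/-- the singular series: the product of the local factors of the primes which do not divide `q` -/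
noncomputable def sing {m : ℕ} (q : ℕ) (a : Fin m → ℕ) : ℝ :=
  ∏' p : Nat.Primes, if (p : ℕ) ∣ q then 1 else loc a p

/-- the `(k + 1)`-tuples of distinct elements of `A` -/
def tuples (k : ℕ) (A : Finset ℕ) : Finset (Fin (k + 1) → ℕ) :=
  (Fintype.piFinset (fun _ => A)).filter Function.Injective

open Classical in
/-- the number of the `1 ≤ n ≤ N` such that for each `m = n, n + d, ..., n + (l - 1) d`: `m ≡ b` modulo `q`,
exactly those `m + a i` with `i ∈ J` are prime, and every prime in `[m - R, m + R]` is in `m + A` -/
noncomputable def starts {k : ℕ} (A : Finset ℕ) (a : Fin (k + 1) → ℕ) (J : Finset (Fin (k + 1)))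
    (q b R l d N : ℕ) : ℕ :=
  ((Icc 1 N).filter (fun n : ℕ => ∀ j < l, n + j * d ≡ b [MOD q] ∧
    (∀ i, (n + j * d + a i).Prime ↔ i ∈ J) ∧
    ∀ x : ℕ, x.Prime → n + j * d ≤ x + R → x ≤ n + j * d + R → ∃ v ∈ A, x = n + j * d + v)).card

/-- all patterns of primes and composites occur on the tuple `a` at the height `N` -/
def Good {k : ℕ} (A : Finset ℕ) (q b l R B N : ℕ) (a : Fin (k + 1) → ℕ) : Prop :=
  ∀ J : Finset (Fin (k + 1)), ∃ d : ℕ, 1 ≤ d ∧ (d : ℝ) ≤ (Real.log N) ^ B ∧
    (N : ℝ) / (Real.log N) ^ B ≤ (starts A a J q b R l d N : ℝ)

/-- The infinite products converge. For all `k` and `ε > 0` there is `C` such that for every set `A` of natural numbers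
`≤ M` with all `b + v` prime to `q`: there is one family `G` of tuples of distinct elements of `A` with at least the stated
mass for which all patterns occur at arbitrarily large heights `N`, and there is such a family at every large height. -/
theorem result (k : ℕ) (ε : ℝ) (hε : 0 < ε) :
    (∀ (q : ℕ) (a : Fin (k + 1) → ℕ), Function.Injective a →
      HasProd (fun p : Nat.Primes => if (p : ℕ) ∣ q then (1 : ℝ) else loc a p) (sing q a)) ∧
    ∃ C : ℝ, ∀ (q b M : ℕ) (A : Finset ℕ), 0 < q → 2 ≤ M → (∀ v ∈ A, v ≤ M ∧ Nat.Coprime (b + v) q) →
      (∃ G ⊆ tuples k A,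
        (proportion k - ε) * max ((A.card : ℝ) ^ (k + 1)) (∑ a ∈ tuples k A, sing q a) -
          C * (Real.log M) ^ (k + 1) ≤ ∑ a ∈ G, sing q a ∧
        ∀ l R : ℕ, ∃ B : ℕ, ∃ᶠ N : ℕ in atTop, ∀ a ∈ G, Good A q b l R B N a) ∧
      ∀ l R : ℕ, ∃ B : ℕ, ∀ᶠ N : ℕ in atTop, ∃ G ⊆ tuples k A,
        (proportion k - ε) * max ((A.card : ℝ) ^ (k + 1)) (∑ a ∈ tuples k A, sing q a) -
          C * (Real.log M) ^ (k + 1) ≤ ∑ a ∈ G, sing q a ∧
        ∀ a ∈ G, Good A q b l R B N a := by
  refine ⟨fun q a ha => (Pool.Agent.H48.PM.multipliable q ha).hasProd, ?_⟩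
  obtain ⟨C, -, hC⟩ := Pool.Agent.H48.PM.everyN k ε hε
  refine ⟨C, fun q b M A hq hM hA => ?_⟩
  have h := hC q b M A hq hM hA
  exact ⟨Pool.Agent.H48.PM.oneG k ε C q b M A h, h⟩

end Pool.Agent.Results.MP_8923e7_nt.MassInArbitrarySets
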