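import Mathlib
import Pool.Agent.H78.TR.Main
import Pool.Agent.H78.TR.Opt

/-!
# Multiple recurrence along trees for all group actions and all tuples of one family of prime constellations

For all `k` and `ε > 0` every large finite set `V` of natural numbers without local obstructions at the primes
`p ≤ z` contains a set `S` of at least `((5/18) ^ (k + 1) - ε) |V| ^ (k + 1)` ordered `(k + 1)`-tuples `x` of
distinct elements with the following two properties.

* For arbitrarily large `N`, for all `x` in `S` at the same time, `n + x 0, ..., n + x k` are all prime for at least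
  `N / (log N) ^ C` numbers `n ≤ N`.
* Let ANY group `G` act on ANY probability space by measure preserving maps, let `f v`, `v ∈ V`, be arbitrary
  measurable functions with values in `[0, 1]`, let a tree on the nodes `0, ..., k` be given by the parents
  `π j ≤ j` of the nodes `j + 1`, and let `h 0, h 1, ...` be arbitrary functions from the natural numbers to `G`.
  Define the positions by `W 0 = 1` and `W (j + 1) = h_j(x_{j+1})⁻¹ h_j(x_{π j}) W (π j)`. Then the mean over all
  `x` in `S` of `∫ ∏_j f_{x_j}(W_j ω)` is at least the mean of `∏_j ∫ f_{x_j}`, up to an error `ε`.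

The family `S` does not depend on the action, the functions `f v`, the tree or the functions `h j`. For a star with
one function `h` this is recurrence for the translates `h(x_j)⁻¹ h(x_0)`; for a path it contains, for `G = ℤ ^ k`,
the recurrence along the vectors `(x_0 - x_k, ..., x_{k-1} - x_k)`, which satisfy the prime `k`-tuples conjecture.
If all `f v` are equal to one function `f` the bound is `(∫ f) ^ (k + 1) - ε`. The exponent `k + 1` is optimal for
paths even when only the two ends of the path are used: for every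
`θ < k + 1` there is `δ` such that for every finite `V` there is an action and a set of measure `δ` for which the
correlation of the ends is less than `δ ^ θ` for ALL tuples of distinct elements of `V`.

The proof combines the structure theorem `PartitionIntoClusters` of the starting files (large subsets of `V` almost
all of whose tuples give prime constellations) with a new inequality for trees (`Pool.Agent.H78.TR.tree`): for every
finite nonempty set `U` the mean of the correlations over ALL `x` in `U ^ (k + 1)` is at least the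
`(k + 1)`-st power of the mean of the `∫ f v`, `v ∈ U`. The examples use
points on spheres in boxes, as in Behrend's construction.
-/

set_option autoImplicit false

namespace Pool.Agent.Results.MP_8923e7_nt.TreeRecurrence

open MeasureTheory Pool.Agent.H78.TR

universe u v

theorem result :
    (∀ (k : ℕ) (ε : ℝ), 0 < ε → ∃ z n₀ C : ℕ, ∀ V : Finset ℕ, n₀ ≤ V.card →
      (∀ p : ℕ, p.Prime → p ≤ z → ∃ r : ℤ, ∀ v ∈ V, ¬ ((p : ℤ) ∣ r + v)) →
      ∃ S : Finset (Fin (k + 1) → ℕ), (∀ x ∈ S, Function.Injective x ∧ ∀ i, x i ∈ V) ∧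
        ((5 / 18 : ℝ) ^ (k + 1) - ε) * (V.card : ℝ) ^ (k + 1) ≤ (S.card : ℝ) ∧
        (∃ᶠ N : ℕ in Filter.atTop, ∀ x ∈ S, (N : ℝ) / (Real.log N) ^ C ≤
          ({n : ℕ | n ≤ N ∧ ∀ i, (n + x i).Prime}.ncard : ℝ)) ∧
        ∀ (G : Type v) [Group G] (Ω : Type u) [MeasurableSpace Ω] [MulAction G Ω] (μ : Measure Ω)
          [IsProbabilityMeasure μ], (∀ g : G, MeasurePreserving (fun ω : Ω => g • ω) μ μ) →
        ∀ f : ℕ → Ω → ℝ, (∀ v ∈ V, Measurable (f v)) → (∀ v ∈ V, ∀ ω, 0 ≤ f v ω ∧ f v ω ≤ 1) →
        ∀ (π : (j : ℕ) → Fin (j + 1)) (h : ℕ → ℕ → G),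
          ∑ x ∈ S, ∏ j, ∫ ω, f (x j) ω ∂μ - ε * (S.card : ℝ) ≤
            ∑ x ∈ S, ∫ ω, ∏ j : Fin (k + 1), f (x j) (W π h (fun m => x (Fin.ofNat (k + 1) m)) j • ω) ∂μ) ∧
    (∀ k : ℕ, 1 ≤ k → ∀ θ : ℝ, θ < k + 1 → ∃ δ : ℝ, 0 < δ ∧ δ < 1 ∧ ∀ V : Finset ℕ,
      ∃ (G : Type) (_ : CommGroup G) (Ω : Type) (_ : MeasurableSpace Ω) (_ : MulAction G Ω) (μ : Measure Ω)
        (_ : IsProbabilityMeasure μ) (f : Ω → ℝ) (h : ℕ → ℕ → G),
        (∀ a : G, MeasurePreserving (fun ω : Ω => a • ω) μ μ) ∧ Measurable f ∧ (∀ ω, f ω = 0 ∨ f ω = 1) ∧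
        ∫ ω, f ω ∂μ = δ ∧
        ∀ x : Fin (k + 1) → ℕ, (∀ i, x i ∈ V) → Function.Injective x →
          ∫ ω, f ω * f (W (fun j => Fin.last j) h (fun m => x (Fin.ofNat (k + 1) m)) k • ω) ∂μ < δ ^ θ) :=
  ⟨main.{u, v}, optimal_path⟩

end Pool.Agent.Results.MP_8923e7_nt.TreeRecurrence
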